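import Mathlib
import Pool.Agent.H295R2.L

set_option autoImplicit false

/-!
The logarithmic derivative of `(s - 1) ζ(s)` to the right of the critical line, under the
Riemann hypothesis.
-/

namespace Pool.Agent.Q296.GM

open Complex Metric Set
open Pool.Agent.H295R2

theorem zs_ne (h : RiemannHypothesis) (s : ℂ) (hs : 1 / 2 < s.re) : Zs s ≠ 0 := by
  by_cases h1 : 1 ≤ s.re
  · exact Zs_ne_zero_of_one_le h1
  · push Not at h1
    have hs1 : s ≠ 1 := by rintro rfl; simp at h1
    rw [← Zs_eq hs1]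
    refine mul_ne_zero (sub_ne_zero.2 hs1) (fun h0 => ?_)
    have := h s h0 (by
      rintro ⟨n, hn⟩
      have h2 : s.re = -2 * ((n : ℝ) + 1) := by rw [hn]; simp
      have : (0 : ℝ) ≤ n := Nat.cast_nonneg n
      linarith) hs1
    linarith

/-- the logarithmic derivative grows slowly. -/
theorem ld_bound (h : RiemannHypothesis) {σ : ℝ} (hσ : 1 / 2 < σ) (hσ1 : σ ≤ 1) :
    ∃ C : ℝ, 0 < C ∧ ∀ s : ℂ, σ ≤ s.re → s.re ≤ 2 →
      ‖deriv Zs s / Zs s‖ ≤ C * (1 + |s.im|) ^ (1 / 4 : ℝ) := by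
  set δ : ℝ := (σ - 1 / 2) / 4 with hδ
  have hδ0 : 0 < δ := by rw [hδ]; linarith
  have hδ1 : δ ≤ 1 / 8 := by rw [hδ]; linarith
  set R : ℝ := 3 / 2 - δ with hR
  set R' : ℝ := 3 / 2 - 2 * δ with hR'
  have hR0 : 0 < R := by rw [hR]; linarith
  have hR'0 : 0 < R' := by rw [hR']; linarith
  have hRR : R - R' = δ := by rw [hR, hR']; ring
  obtain ⟨K, hK1, hK⟩ := zeta_bounds (a := 17 / 16) (by norm_num)
  have hlogK : 0 ≤ Real.log K := Real.log_nonneg hK1
  set C2 : ℝ := (2 * 5 * R' + (5 + Real.log K + 4) * (R + R')) / δ with hC2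
  have hC20 : 0 < C2 := by rw [hC2]; positivity
  refine ⟨(C2 / (2 * δ)) * (1 + 8) , by positivity, fun s hs1 hs2 => ?_⟩
  set t : ℝ := s.im with htdef
  set c : ℂ := ⟨2, t⟩ with hc
  have hcre : c.re = 2 := rfl
  have hcim : c.im = t := rfl
  set f0 : ℂ → ℂ := fun z => Zs (c + z) with hf0
  have hgeo : ∀ z ∈ ball (0 : ℂ) R, 1 / 2 < (c + z).re ∧ ‖c + z‖ ≤ |t| + 4 := by
    intro z hz'
    rw [mem_ball_zero_iff] at hz'
    have h1 := Complex.abs_re_le_norm z
    have h3 := abs_le.mp (h1.trans hz'.le)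
    refine ⟨by rw [Complex.add_re, hcre]; rw [hR] at h3; linarith [h3.1], ?_⟩
    have h4 : ‖c‖ ≤ 2 + |t| := by
      have := Complex.norm_le_abs_re_add_abs_im c
      rw [hcre, hcim, abs_of_pos (by norm_num : (0 : ℝ) < 2)] at this
      exact this
    have h5 := norm_add_le c z
    have h6 : R ≤ 2 := by rw [hR]; linarith
    linarith
  have hf0d : DifferentiableOn ℂ f0 (ball 0 R) := by
    intro z _
    refine DifferentiableAt.differentiableWithinAt ?_
    exact DifferentiableAt.comp z (g := Zs) (f := fun z => c + z) (Zs_differentiable _) (by fun_prop)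
  have hf0ne : ∀ z ∈ ball (0 : ℂ) R, f0 z ≠ 0 := fun z hz' => zs_ne h _ (hgeo z hz').1
  obtain ⟨L, hLd, hLexp, hL0⟩ := exists_log_ball hR0 hf0d hf0ne
  have hLre : ∀ z ∈ ball (0 : ℂ) R, (L z).re = Real.log ‖f0 z‖ := by
    intro z hz'
    rw [← hLexp z hz', Complex.norm_exp, Real.log_exp]
  set A : ℝ := 5 * (1 + Real.log (|t| + 5)) with hA
  have hlogt : 0 ≤ Real.log (|t| + 5) := Real.log_nonneg (by linarith [abs_nonneg t])
  have hApos : 0 < A := by rw [hA]; positivity
  have hup : ∀ z ∈ ball (0 : ℂ) R, Real.log ‖f0 z‖ ≤ A := by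
    intro z hz'
    obtain ⟨g1, g2⟩ := hgeo z hz'
    have h1 : ‖f0 z‖ ≤ 5 * (|t| + 5) ^ 2 := by
      have h2 : ‖Zs (c + z)‖ ≤ 5 * (‖c + z‖ + 1) ^ 2 := Zs_norm_le (by linarith)
      refine h2.trans ?_
      have : ‖c + z‖ + 1 ≤ |t| + 5 := by linarith
      gcongr
    have hpos : 0 < ‖f0 z‖ := norm_pos_iff.mpr (hf0ne z hz')
    have h9 : Real.log ‖f0 z‖ ≤ Real.log (5 * (|t| + 5) ^ 2) := Real.log_le_log hpos h1
    have h10 : Real.log (5 * (|t| + 5) ^ 2) = Real.log 5 + 2 * Real.log (|t| + 5) := by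
      rw [Real.log_mul (by norm_num) (by positivity), Real.log_pow]
      norm_num
    have h13 : Real.log 5 ≤ 2 := by
      rw [Real.log_le_iff_le_exp (by norm_num)]
      have h14 := Real.quadratic_le_exp_of_nonneg (x := 2) (by norm_num)
      linarith
    rw [hA]
    linarith
  have hL00 : ‖L 0‖ ≤ A + Real.log K + 4 := by
    rw [hL0]
    have h0m : (0 : ℂ) ∈ ball (0 : ℂ) R := mem_ball_self hR0
    have e1 := hup 0 h0m
    have hpos : 0 < ‖f0 0‖ := norm_pos_iff.mpr (hf0ne 0 h0m)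
    have e2 : -Real.log K ≤ Real.log ‖f0 0‖ := by
      rw [← Real.log_inv]
      refine Real.log_le_log (by positivity) ?_
      have hc1 : c ≠ 1 := by
        intro h'
        have := congrArg Complex.re h'
        rw [hcre] at this
        norm_num at this
      have h1 := (hK c (by rw [hcre]; norm_num)).2
      have h2 : f0 0 = (c - 1) * (fz c)⁻¹ := by
        simp only [hf0, add_zero, fz]
        have : c - 1 ≠ 0 := sub_ne_zero.2 hc1
        field_simp
      have h3 : 1 ≤ ‖c - 1‖ := by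
        have := Complex.abs_re_le_norm (c - 1)
        rw [Complex.sub_re, hcre, Complex.one_re] at this
        norm_num at this
        exact this
      have hfz : fz c ≠ 0 := by
        unfold fz
        exact div_ne_zero (sub_ne_zero.2 hc1) (zs_ne h c (by rw [hcre]; norm_num))
      have hfz' : 0 < ‖fz c‖ := norm_pos_iff.2 hfz
      rw [h2, norm_mul, norm_inv]
      calc K⁻¹ ≤ ‖fz c‖⁻¹ := inv_anti₀ hfz' h1
        _ = 1 * ‖fz c‖⁻¹ := (one_mul _).symm
        _ ≤ ‖c - 1‖ * ‖fz c‖⁻¹ := mul_le_mul_of_nonneg_right h3 (by positivity)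
    have e3 : |(Complex.log (f0 0)).re| ≤ A + Real.log K := by
      rw [Complex.log_re, abs_le]
      constructor <;> linarith
    have e4 : |(Complex.log (f0 0)).im| ≤ 4 := by
      rw [Complex.log_im]
      have := Complex.abs_arg_le_pi (f0 0)
      linarith [Real.pi_le_four]
    calc ‖Complex.log (f0 0)‖ ≤ |(Complex.log (f0 0)).re| + |(Complex.log (f0 0)).im| :=
          Complex.norm_le_abs_re_add_abs_im _
      _ ≤ _ := add_le_add e3 e4
  have hBC : ∀ z : ℂ, ‖z‖ ≤ R' → ‖L z‖ ≤ C2 * (1 + Real.log (|t| + 5)) := by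
    intro z hz'
    have hzR : z ∈ ball (0 : ℂ) R := by rw [mem_ball_zero_iff]; linarith
    have h1 := Complex.borelCaratheodory hApos hLd (fun z hz => by
      change (L z).re ≤ A
      rw [hLre z hz]
      exact hup z hz) hR0 hzR
    refine h1.trans ?_
    have hd2 : δ ≤ R - ‖z‖ := by linarith
    have e1 : 2 * A * ‖z‖ / (R - ‖z‖) ≤ 2 * A * R' / δ := by
      gcongr
    have e2 : ‖L 0‖ * (R + ‖z‖) / (R - ‖z‖) ≤ (A + Real.log K + 4) * (R + R') / δ := by
      gcongr
    refine (add_le_add e1 e2).trans ?_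
    rw [← add_div, hC2, div_mul_eq_mul_div]
    refine div_le_div_of_nonneg_right ?_ hδ0.le
    have e5 : (Real.log K + 4) * (R + R') * 1 ≤ (Real.log K + 4) * (R + R') *
        (1 + Real.log (|t| + 5)) := by
      refine mul_le_mul_of_nonneg_left (by linarith) (by positivity)
    rw [hA]
    nlinarith [e5]
  -- the point
  set z0 : ℂ := ((s.re - 2 : ℝ) : ℂ) with hz0
  have hcz : c + z0 = s := by
    apply Complex.ext
    · rw [Complex.add_re, hcre, hz0, Complex.ofReal_re]; ring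
    · rw [Complex.add_im, hcim, hz0, Complex.ofReal_im]; ring
  have hz0n : ‖z0‖ ≤ R' - 2 * δ := by
    rw [hz0, Complex.norm_real, Real.norm_eq_abs, abs_of_nonpos (by linarith), hR']
    have : σ = 1 / 2 + 4 * δ := by rw [hδ]; ring
    linarith
  have hderiv : ‖deriv L z0‖ ≤ C2 * (1 + Real.log (|t| + 5)) / (2 * δ) := by
    refine Complex.norm_deriv_le_of_forall_mem_sphere_norm_le (by positivity) ?_ ?_
    · refine DifferentiableOn.diffContOnCl_ball (U := ball (0 : ℂ) R) hLd ?_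
      intro z hz
      rw [mem_closedBall] at hz
      rw [mem_ball_zero_iff]
      have : ‖z‖ ≤ dist z z0 + ‖z0‖ := by
        rw [dist_eq_norm]
        exact norm_le_norm_sub_add z z0
      linarith
    · intro z hz
      rw [mem_sphere] at hz
      refine hBC z ?_
      have : ‖z‖ ≤ dist z z0 + ‖z0‖ := by
        rw [dist_eq_norm]
        exact norm_le_norm_sub_add z z0
      linarith
  have hz0b : z0 ∈ ball (0 : ℂ) R := by rw [mem_ball_zero_iff]; linarith
  have hLder : deriv L z0 = deriv Zs s / Zs s := by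
    have hLa : DifferentiableAt ℂ L z0 := hLd.differentiableAt (isOpen_ball.mem_nhds hz0b)
    have h1 : HasDerivAt (fun z => Complex.exp (L z)) (Complex.exp (L z0) * deriv L z0) z0 :=
      hLa.hasDerivAt.cexp
    have h2 : HasDerivAt f0 (deriv Zs s) z0 := by
      have h3 : HasDerivAt Zs (deriv Zs s) (c + z0) := by
        rw [hcz]
        exact (Zs_differentiable s).hasDerivAt
      exact h3.comp_const_add c z0
    have h3 : (fun z => Complex.exp (L z)) =ᶠ[nhds z0] f0 := by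
      filter_upwards [isOpen_ball.mem_nhds hz0b] with z hz
      exact hLexp z hz
    have h4 := h1.unique (h2.congr_of_eventuallyEq h3)
    rw [hLexp z0 hz0b] at h4
    have h5 : f0 z0 = Zs s := by simp only [hf0, hcz]
    rw [h5] at h4
    have h6 : Zs s ≠ 0 := zs_ne h s (by linarith)
    field_simp
    rw [mul_comm]
    exact h4
  rw [← hLder]
  refine hderiv.trans ?_
  have hlog : 1 + Real.log (|t| + 5) ≤ (1 + 8) * (1 + |t|) ^ (1 / 4 : ℝ) := by
    have h1 := Real.log_le_rpow_div (x := |t| + 5) (by positivity) (ε := 1 / 4) (by norm_num)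
    have h2 : (|t| + 5) ^ (1 / 4 : ℝ) ≤ 2 * (1 + |t|) ^ (1 / 4 : ℝ) := by
      have h3 : (2 : ℝ) = 16 ^ (1 / 4 : ℝ) := by
        rw [show (16 : ℝ) = 2 ^ (4 : ℝ) by norm_num, ← Real.rpow_mul (by norm_num)]
        norm_num
      calc (|t| + 5) ^ (1 / 4 : ℝ) ≤ (16 * (1 + |t|)) ^ (1 / 4 : ℝ) := by
            refine Real.rpow_le_rpow (by positivity) ?_ (by norm_num)
            linarith [abs_nonneg t]
        _ = 16 ^ (1 / 4 : ℝ) * (1 + |t|) ^ (1 / 4 : ℝ) := Real.mul_rpow (by norm_num) (by positivity)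
        _ = _ := by rw [← h3]
    have h4 : 1 ≤ (1 + |t|) ^ (1 / 4 : ℝ) := Real.one_le_rpow (by linarith [abs_nonneg t]) (by norm_num)
    have h5 : (|t| + 5) ^ (1 / 4 : ℝ) / (1 / 4) = 4 * (|t| + 5) ^ (1 / 4 : ℝ) := by ring
    rw [h5] at h1
    linarith
  calc C2 * (1 + Real.log (|t| + 5)) / (2 * δ) = C2 / (2 * δ) * (1 + Real.log (|t| + 5)) := by ring
    _ ≤ C2 / (2 * δ) * ((1 + 8) * (1 + |t|) ^ (1 / 4 : ℝ)) :=
        mul_le_mul_of_nonneg_left hlog (by positivity)
    _ = _ := by ring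

end Pool.Agent.Q296.GM
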