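import Mathlib
import Pool.Agent.Q296.GM.Ld
import Pool.Agent.H295R2.P
import Pool.Agent.Q260.GM.DefsA

set_option autoImplicit false

/-!
The Laplace transform of `ψ(e^w) - e^w`.
-/

namespace Pool.Agent.Q296.GM

open Complex MeasureTheory Filter Topology Set
open Pool.Agent.H295R2
open Pool.Agent.Q260.GM (ph)

/-- the Laplace transform -/
noncomputable def FF (s : ℂ) : ℂ := -(1 + deriv Zs s / Zs s) / s

/-- the normalised function -/
noncomputable def kk (u : ℝ) : ℂ := if 0 ≤ u then ((ph u * Real.exp (-u) : ℝ) : ℂ) else 0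

theorem ph_meas : Measurable ph := by
  unfold ph
  exact (Chebyshev.psi_mono.measurable.comp Real.measurable_exp).sub Real.measurable_exp

theorem kk_meas : Measurable kk := by
  unfold kk
  refine Measurable.ite measurableSet_Ici ?_ measurable_const
  exact Complex.measurable_ofReal.comp (ph_meas.mul (Real.measurable_exp.comp measurable_neg))

theorem ph_le (u : ℝ) : |ph u| ≤ (Real.log 4 + 5) * Real.exp u := by
  unfold ph
  have h1 := Chebyshev.psi_le_const_mul_self (x := Real.exp u) (Real.exp_pos u).le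
  have h2 := Chebyshev.psi_nonneg (Real.exp u)
  have h3 := Real.exp_pos u
  have h4 : 0 ≤ Real.log 4 := Real.log_nonneg (by norm_num)
  rw [abs_le]
  constructor <;> nlinarith

theorem kk_nice : Nice kk (Real.log 4 + 5) 0 0 where
  meas := kk_meas
  bound := by
    intro u
    have h4 : 0 ≤ Real.log 4 := Real.log_nonneg (by norm_num)
    unfold kk
    split_ifs with h
    · rw [Complex.norm_real, Real.norm_eq_abs, abs_mul, abs_of_pos (Real.exp_pos (-u))]
      have h1 := ph_le u
      calc |ph u| * Real.exp (-u) ≤ (Real.log 4 + 5) * Real.exp u * Real.exp (-u) :=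
            mul_le_mul_of_nonneg_right h1 (Real.exp_pos _).le
        _ = Real.log 4 + 5 := by rw [mul_assoc, ← Real.exp_add]; simp
        _ ≤ _ := by simp
    · rw [norm_zero]
      positivity
  zero := by
    intro u hu
    unfold kk
    rw [if_neg (by linarith)]

/-- the change of variables `t = e^u` -/
theorem int_exp (G : ℝ → ℂ) :
    ∫ t in Ioi (1 : ℝ), G t = ∫ u in Ioi (0 : ℝ), (Real.exp u : ℂ) * G (Real.exp u) := by
  have himg : Real.exp '' Ioi (0 : ℝ) = Ioi 1 := by
    ext y
    constructor
    · rintro ⟨x, hx, rfl⟩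
      exact Real.one_lt_exp_iff.2 hx
    · intro hy
      have hy' : (1 : ℝ) < y := hy
      exact ⟨Real.log y, Real.log_pos hy', Real.exp_log (by linarith)⟩
  rw [← himg, integral_image_eq_integral_abs_deriv_smul measurableSet_Ioi
    (fun x _ => (Real.hasDerivAt_exp x).hasDerivWithinAt) Real.exp_injective.injOn]
  refine setIntegral_congr_fun measurableSet_Ioi (fun u _ => ?_)
  rw [abs_of_pos (Real.exp_pos u), Complex.real_smul]

theorem exp_cpow (u : ℝ) (s : ℂ) : ((Real.exp u : ℝ) : ℂ) ^ s = Complex.exp (s * u) := by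
  rw [Complex.ofReal_exp, Complex.cpow_def_of_ne_zero (Complex.exp_ne_zero _),
    Complex.log_exp]
  · rw [mul_comm]
  · simp [Real.pi_pos]
  · simp [Real.pi_pos.le]

/-- the Laplace transform of `ψ(e^u)` -/
theorem lap_psi {s : ℂ} (hs : 1 < s.re) :
    ∫ u in Ioi (0 : ℝ), (Chebyshev.psi (Real.exp u) : ℂ) * Complex.exp (-(s * u)) =
      -(deriv riemannZeta s / riemannZeta s) / s := by
  have hs0 : s ≠ 0 := by rintro rfl; simp at hs; linarith
  have hO : (fun n : ℕ => ∑ k ∈ Finset.Icc 1 n, ArithmeticFunction.vonMangoldt k) =O[atTop]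
      fun n : ℕ => (n : ℝ) ^ (1 : ℝ) := by
    refine Asymptotics.IsBigO.of_bound (Real.log 4 + 4) (Eventually.of_forall fun n => ?_)
    have h1 := Chebyshev.psi_le_const_mul_self (x := (n : ℝ)) (Nat.cast_nonneg n)
    have h2 := Chebyshev.psi_nonneg (n : ℝ)
    unfold Chebyshev.psi at h1 h2
    rw [Nat.floor_natCast] at h1 h2
    have h3 : Finset.Icc 1 n = Finset.Ioc 0 n := rfl
    rw [h3, Real.norm_of_nonneg h2, Real.rpow_one, Real.norm_of_nonneg (Nat.cast_nonneg n)]
    exact h1
  have h1 := LSeries_eq_mul_integral_of_nonneg (fun n => ArithmeticFunction.vonMangoldt n)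
    zero_le_one hs hO (fun n => ArithmeticFunction.vonMangoldt_nonneg)
  rw [ArithmeticFunction.LSeries_vonMangoldt_eq_deriv_riemannZeta_div hs, int_exp] at h1
  have h2 : ∀ u : ℝ, (Real.exp u : ℂ) *
      ((∑ k ∈ Finset.Icc 1 ⌊Real.exp u⌋₊, ((ArithmeticFunction.vonMangoldt k : ℝ) : ℂ)) *
        ((Real.exp u : ℝ) : ℂ) ^ (-(s + 1))) =
      (Chebyshev.psi (Real.exp u) : ℂ) * Complex.exp (-(s * u)) := by
    intro u
    have h3 : (∑ k ∈ Finset.Icc 1 ⌊Real.exp u⌋₊, ((ArithmeticFunction.vonMangoldt k : ℝ) : ℂ)) =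
        ((Chebyshev.psi (Real.exp u) : ℝ) : ℂ) := by
      unfold Chebyshev.psi
      push_cast
      rfl
    rw [h3, exp_cpow, Complex.ofReal_exp]
    calc Complex.exp u * (((Chebyshev.psi (Real.exp u) : ℝ) : ℂ) * Complex.exp (-(s + 1) * u))
        = ((Chebyshev.psi (Real.exp u) : ℝ) : ℂ) * (Complex.exp u * Complex.exp (-(s + 1) * u)) := by
          ring
      _ = _ := by
          rw [← Complex.exp_add]
          congr 2
          ring
  simp_rw [h2] at h1
  rw [neg_div] at h1
  rw [h1, mul_div_cancel_left₀ _ hs0]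

/-- the Laplace transform of the normalised function -/
theorem lap_kk {s : ℂ} (hs : 0 < s.re) : Lap kk s = FF (s + 1) := by
  have hs1 : 1 < (s + 1).re := by simp; linarith
  have hne : s + 1 ≠ 1 := by
    intro h
    have := congrArg Complex.re h
    simp at this
    linarith
  have hs0 : s ≠ 0 := by rintro rfl; simp at hs
  have hs10 : s + 1 ≠ 0 := by
    intro h
    have := congrArg Complex.re h
    simp at this
    linarith
  -- the transform
  have h1 : Lap kk s = ∫ u in Ioi (0 : ℝ), ((Chebyshev.psi (Real.exp u) : ℂ) *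
      Complex.exp (-((s + 1) * u)) - Complex.exp (-s * u)) := by
    unfold Lap
    have e1 : ∀ u : ℝ, kk u * Complex.exp (-(s * u)) =
        (Ici (0 : ℝ)).indicator (fun u : ℝ => (Chebyshev.psi (Real.exp u) : ℂ) *
          Complex.exp (-((s + 1) * u)) - Complex.exp (-s * u)) u := by
      intro u
      unfold kk
      by_cases hu : 0 ≤ u
      · rw [if_pos hu, indicator_of_mem (show u ∈ Ici (0 : ℝ) from hu)]
        unfold ph
        push_cast
        have e2 : Complex.exp (-u) * Complex.exp (-(s * u)) = Complex.exp (-((s + 1) * u)) := by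
          rw [← Complex.exp_add]; congr 1; ring
        have e3 : Complex.exp u * Complex.exp (-((s + 1) * u)) = Complex.exp (-s * u) := by
          rw [← Complex.exp_add]; congr 1; ring
        linear_combination ((Chebyshev.psi (Real.exp u) : ℂ) - Complex.exp u) * e2 - e3
      · rw [if_neg hu, indicator_of_notMem (show u ∉ Ici (0 : ℝ) from hu), zero_mul]
    simp_rw [e1]
    rw [integral_indicator measurableSet_Ici, integral_Ici_eq_integral_Ioi]
  have hI1 : IntegrableOn (fun u : ℝ => (Chebyshev.psi (Real.exp u) : ℂ) *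
      Complex.exp (-((s + 1) * u))) (Ioi 0) := by
    have h2 := (integrableOn_exp_mul_Ioi (a := -s.re) (by linarith) 0).const_mul (Real.log 4 + 4)
    refine Integrable.mono' h2 ?_ ?_
    · refine AEStronglyMeasurable.mul ?_ (Continuous.aestronglyMeasurable (by fun_prop))
      exact (Complex.measurable_ofReal.comp
        (Chebyshev.psi_mono.measurable.comp Real.measurable_exp)).aestronglyMeasurable
    · refine Eventually.of_forall fun u => ?_
      rw [norm_mul, norm_exp_neg_mul, Complex.norm_real, Real.norm_of_nonneg (Chebyshev.psi_nonneg _)]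
      have h3 := Chebyshev.psi_le_const_mul_self (x := Real.exp u) (Real.exp_pos u).le
      calc Chebyshev.psi (Real.exp u) * Real.exp (-((s + 1).re * u))
          ≤ (Real.log 4 + 4) * Real.exp u * Real.exp (-((s + 1).re * u)) :=
            mul_le_mul_of_nonneg_right h3 (Real.exp_pos _).le
        _ = _ := by
            rw [mul_assoc, ← Real.exp_add]
            congr 2
            simp
            ring
  have hI2 : IntegrableOn (fun u : ℝ => Complex.exp (-s * u)) (Ioi 0) :=
    integrableOn_exp_mul_complex_Ioi (by simpa using hs) 0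
  rw [h1, integral_sub hI1 hI2, lap_psi hs1, integral_exp_mul_complex_Ioi (by simpa using hs)]
  -- the derivative
  have hd : deriv Zs (s + 1) = riemannZeta (s + 1) + s * deriv riemannZeta (s + 1) := by
    have e1 : Zs =ᶠ[𝓝 (s + 1)] fun z => (z - 1) * riemannZeta z := by
      filter_upwards [isOpen_ne.mem_nhds hne] with z hz
      exact (Zs_eq hz).symm
    rw [e1.deriv_eq]
    have e2 : HasDerivAt (fun z : ℂ => (z - 1) * riemannZeta z)
        (1 * riemannZeta (s + 1) + (s + 1 - 1) * deriv riemannZeta (s + 1)) (s + 1) :=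
      ((hasDerivAt_id' (s + 1)).sub_const 1).mul (differentiableAt_riemannZeta hne).hasDerivAt
    rw [e2.deriv]
    ring
  have hZ : Zs (s + 1) = s * riemannZeta (s + 1) := by
    rw [← Zs_eq hne]; ring
  have hz0 : riemannZeta (s + 1) ≠ 0 := riemannZeta_ne_zero_of_one_le_re hs1.le
  unfold FF
  rw [hd, hZ]
  simp only [Complex.ofReal_zero, mul_zero, Complex.exp_zero]
  field_simp
  ring

end Pool.Agent.Q296.GM
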