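import Mathlib
import Pool.Agent.Q296.GM.Lp
import Pool.Agent.H153R4.Pl

set_option autoImplicit false

/-!
Under the Riemann hypothesis `ψ(x) - x = O(x ^ (1/2 + ε))` in mean square.
-/

namespace Pool.Agent.Q296.GM

open Complex MeasureTheory Filter Topology Set FourierTransform
open Pool.Agent.H295R2
open Pool.Agent.Q260.GM (ph L2psi)

theorem FF_diff (h : RiemannHypothesis) {s : ℂ} (hs : 1 / 2 < s.re) : DifferentiableAt ℂ FF s := by
  unfold FF
  have hs0 : s ≠ 0 := by rintro rfl; simp at hs; linarith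
  have h1 : DifferentiableAt ℂ (deriv Zs) s := by
    have : Differentiable ℂ (deriv Zs) := Zs_differentiable.deriv
    exact this s
  exact (((h1.div (Zs_differentiable s) (zs_ne h s hs)).const_add 1).neg).div differentiableAt_id hs0

theorem FF_bound (h : RiemannHypothesis) {σ : ℝ} (hσ : 1 / 2 < σ) (hσ1 : σ ≤ 1) :
    ∃ C : ℝ, 0 < C ∧ ∀ s : ℂ, σ ≤ s.re → s.re ≤ 2 →
      ‖FF s‖ ≤ C * (1 + |s.im|) ^ (-(3 / 4) : ℝ) := by
  obtain ⟨C, hC, hb⟩ := ld_bound h hσ hσ1
  refine ⟨3 * (1 + C), by positivity, fun s hs1 hs2 => ?_⟩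
  have h1 := hb s hs1 hs2
  have hr : 1 ≤ (1 + |s.im|) ^ (1 / 4 : ℝ) :=
    Real.one_le_rpow (by linarith [abs_nonneg s.im]) (by norm_num)
  have hs : 1 + |s.im| ≤ 3 * ‖s‖ := by
    have e1 := Complex.abs_im_le_norm s
    have e2 := Complex.abs_re_le_norm s
    have e3 := le_abs_self s.re
    linarith
  have hspos : 0 < ‖s‖ := by linarith [abs_nonneg s.im]
  unfold FF
  rw [norm_div, norm_neg, div_le_iff₀ hspos]
  have h2 : ‖1 + deriv Zs s / Zs s‖ ≤ (1 + C) * (1 + |s.im|) ^ (1 / 4 : ℝ) := by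
    refine (norm_add_le _ _).trans ?_
    rw [norm_one]
    nlinarith
  refine h2.trans ?_
  have h3 : (1 + |s.im|) ^ (1 / 4 : ℝ) = (1 + |s.im|) ^ (-(3 / 4) : ℝ) * (1 + |s.im|) := by
    have hp : (0 : ℝ) < 1 + |s.im| := by positivity
    nth_rewrite 3 [← Real.rpow_one (1 + |s.im|)]
    rw [← Real.rpow_add hp]
    norm_num
  rw [h3]
  have h4 : 0 ≤ (1 + |s.im|) ^ (-(3 / 4) : ℝ) := by positivity
  have h5 : 0 ≤ (1 + C) * (1 + |s.im|) ^ (-(3 / 4) : ℝ) := by positivity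
  nlinarith [mul_le_mul_of_nonneg_left hs h5]

/-- the transform of the average, without the singularity -/
noncomputable def p2 (η : ℝ) (s : ℂ) : ℂ := dslope (fun z : ℂ => Complex.exp (z * η)) 0 s / η

theorem p2_eq {η : ℝ} {s : ℂ} (hs : s ≠ 0) : p2 η s = phi η s := by
  unfold p2 phi
  rw [dslope_of_ne _ hs, slope_def_field]
  simp only [zero_mul, Complex.exp_zero, sub_zero]
  rw [div_div]

theorem p2_diff (η : ℝ) : Differentiable ℂ (p2 η) := by
  unfold p2
  have h1 : DifferentiableOn ℂ (fun z : ℂ => Complex.exp (z * η)) univ :=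
    Differentiable.differentiableOn (by fun_prop)
  have h2 := (Complex.differentiableOn_dslope (c := (0 : ℂ)) univ_mem).2 h1
  intro s
  exact (h2.differentiableAt univ_mem).div_const _

theorem p2_le {η : ℝ} (hη : 0 < η) (hη1 : η ≤ 1) {s : ℂ} (hs : -1 ≤ s.re) (hs1 : s.re ≤ 1) :
    ‖p2 η s‖ ≤ 3 := by
  by_cases h0 : s = 0
  · subst h0
    unfold p2
    rw [dslope_same]
    have h1 : HasDerivAt (fun z : ℂ => Complex.exp (z * η)) (Complex.exp (0 * η) * (1 * η)) 0 :=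
      ((hasDerivAt_id' (0 : ℂ)).mul_const (η : ℂ)).cexp
    rw [h1.deriv]
    have : (η : ℂ) ≠ 0 := by exact_mod_cast hη.ne'
    simp only [zero_mul, Complex.exp_zero, one_mul]
    rw [div_self this, norm_one]
    norm_num
  · rw [p2_eq h0, phi_eq_integral hη h0, norm_mul, norm_div, norm_one, Complex.norm_real,
      Real.norm_of_nonneg hη.le]
    have h2 : ‖∫ v in (0 : ℝ)..η, Complex.exp (s * v)‖ ≤ 3 * |η - 0| := by
      refine intervalIntegral.norm_integral_le_of_norm_le_const fun v hv => ?_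
      rw [uIoc_of_le hη.le] at hv
      rw [Complex.norm_exp]
      have h3 : (s * v).re = s.re * v := by simp
      rw [h3]
      have h4 : s.re * v ≤ 1 := by nlinarith [hv.1, hv.2]
      calc Real.exp (s.re * v) ≤ Real.exp 1 := Real.exp_le_exp.2 h4
        _ ≤ 3 := by linarith [Real.exp_one_lt_d9]
    rw [sub_zero, abs_of_pos hη] at h2
    calc 1 / η * ‖∫ v in (0 : ℝ)..η, Complex.exp (s * v)‖ ≤ 1 / η * (3 * η) :=
          mul_le_mul_of_nonneg_left h2 (by positivity)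
      _ = 3 := by field_simp

theorem p2_le' {η : ℝ} (hη : 0 < η) (hη1 : η ≤ 1) {s : ℂ} (hs : -1 ≤ s.re) (hs1 : s.re ≤ 1) :
    ‖p2 η s‖ ≤ (8 / η) * (1 + |s.im|) ^ (-1 : ℝ) := by
  have hp : (0 : ℝ) < 1 + |s.im| := by positivity
  rw [Real.rpow_neg_one, div_mul_eq_mul_div, le_div_iff₀ hη, ← div_eq_mul_inv, le_div_iff₀ hp]
  rcases le_or_gt |s.im| 1 with h | h
  · have h1 := p2_le hη hη1 hs hs1
    have h2 : ‖p2 η s‖ * η ≤ 3 := by nlinarith [norm_nonneg (p2 η s)]
    nlinarith [mul_nonneg (norm_nonneg (p2 η s)) hη.le]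
  · have h0 : s ≠ 0 := by rintro rfl; simp at h; linarith
    have hs0 : 0 < ‖s‖ := norm_pos_iff.2 h0
    have him := Complex.abs_im_le_norm s
    have h1 : ‖p2 η s‖ * η = ‖Complex.exp (s * η) - 1‖ / ‖s‖ := by
      rw [p2_eq h0]
      unfold phi
      rw [norm_div, norm_mul, Complex.norm_real, Real.norm_of_nonneg hη.le]
      field_simp
    rw [h1, div_mul_eq_mul_div, div_le_iff₀ hs0]
    have h2 : ‖Complex.exp (s * η) - 1‖ ≤ 4 := by
      refine (norm_sub_le _ _).trans ?_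
      rw [norm_one, Complex.norm_exp]
      have h3 : (s * η).re = s.re * η := by simp
      rw [h3]
      have h4 : s.re * η ≤ 1 := by nlinarith
      have h5 := Real.exp_le_exp.2 h4
      linarith [Real.exp_one_lt_d9]
    nlinarith [norm_nonneg (Complex.exp (s * η) - 1)]

/-- the shifted representation -/
theorem avg_repr (h : RiemannHypothesis) {σ : ℝ} (hσ : 1 / 2 < σ) (hσ1 : σ < 1) {η : ℝ}
    (hη : 0 < η) (hη1 : η ≤ 1) (u : ℝ) :
    avg η kk u = ∫ ξ : ℝ, p2 η (((σ - 1 : ℝ) : ℂ) + 2 * Real.pi * ξ * I) *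
      FF (((σ - 1 : ℝ) : ℂ) + 2 * Real.pi * ξ * I + 1) *
      Complex.exp ((((σ - 1 : ℝ) : ℂ) + 2 * Real.pi * ξ * I) * u) := by
  obtain ⟨C, hC, hF⟩ := FF_bound h hσ hσ1.le
  set H : ℂ → ℂ := fun s => p2 η s * FF (s + 1) * Complex.exp (s * u) with hH
  have hbd : ∀ s : ℂ, ((σ - 1 : ℝ)) ≤ s.re → s.re ≤ ((1 : ℝ)) →
      ‖H s‖ ≤ (8 / η * C * Real.exp |u|) * (1 + |s.im|) ^ (-(3 / 2 : ℝ)) := by
    intro s hs1 hs2
    have hp : (0 : ℝ) < 1 + |s.im| := by positivity
    have e1 := p2_le' hη hη1 (s := s) (by linarith) hs2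
    have e2 := hF (s + 1) (by rw [Complex.add_re, Complex.one_re]; linarith)
      (by rw [Complex.add_re, Complex.one_re]; linarith)
    have him : (s + 1).im = s.im := by simp
    rw [him] at e2
    have e3 : ‖Complex.exp (s * u)‖ ≤ Real.exp |u| := by
      rw [Complex.norm_exp]
      apply Real.exp_le_exp.2
      have : (s * u).re = s.re * u := by simp
      rw [this]
      have h3 : |s.re| ≤ 1 := by rw [abs_le]; constructor <;> linarith
      calc s.re * u ≤ |s.re * u| := le_abs_self _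
        _ = |s.re| * |u| := abs_mul _ _
        _ ≤ 1 * |u| := mul_le_mul_of_nonneg_right h3 (abs_nonneg _)
        _ = |u| := one_mul _
    rw [hH]
    simp only
    rw [norm_mul, norm_mul]
    calc ‖p2 η s‖ * ‖FF (s + 1)‖ * ‖Complex.exp (s * u)‖
        ≤ ((8 / η) * (1 + |s.im|) ^ (-1 : ℝ)) * (C * (1 + |s.im|) ^ (-(3 / 4) : ℝ)) *
          Real.exp |u| := by gcongr
      _ = (8 / η * C * Real.exp |u|) * ((1 + |s.im|) ^ (-1 : ℝ) * (1 + |s.im|) ^ (-(3 / 4) : ℝ)) := by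
          ring
      _ ≤ (8 / η * C * Real.exp |u|) * (1 + |s.im|) ^ (-(3 / 2 : ℝ)) := by
          rw [← Real.rpow_add hp]
          refine mul_le_mul_of_nonneg_left ?_ (by positivity)
          exact Real.rpow_le_rpow_of_exponent_le (by linarith [abs_nonneg s.im]) (by norm_num)
  have hd : ∀ s : ℂ, ((σ - 1 : ℝ)) ≤ s.re → s.re ≤ ((1 : ℝ)) → DifferentiableAt ℂ H s := by
    intro s hs1 _
    have h1 : DifferentiableAt ℂ FF (s + 1) :=
      FF_diff h (by rw [Complex.add_re, Complex.one_re]; linarith)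
    have h2 : DifferentiableAt ℂ (fun s : ℂ => FF (s + 1)) s :=
      DifferentiableAt.comp s (g := FF) (f := fun s : ℂ => s + 1) h1 (by fun_prop)
    exact ((p2_diff η s).mul h2).mul (by fun_prop)
  have hshift := contour_shift (H := H) (a := σ - 1) (b := 1) (by linarith) hd hbd
  -- inversion on the line `1`
  have hlap : ∀ ξ : ℝ, Lap (avg η kk) (((1 : ℝ) : ℂ) + 2 * Real.pi * ξ * I) =
      p2 η (((1 : ℝ) : ℂ) + 2 * Real.pi * ξ * I) *
        FF (((1 : ℝ) : ℂ) + 2 * Real.pi * ξ * I + 1) := by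
    intro ξ
    have hre : (((1 : ℝ) : ℂ) + 2 * Real.pi * ξ * I).re = 1 := by simp
    have hne : ((1 : ℝ) : ℂ) + 2 * Real.pi * ξ * I ≠ 0 := by
      intro h0
      rw [h0] at hre
      simp at hre
    rw [kk_nice.Lap_avg hη (by rw [hre]; norm_num), lap_kk (by rw [hre]; norm_num), p2_eq hne]
  have hint : Integrable (fun ξ : ℝ => Lap (avg η kk) (((1 : ℝ) : ℂ) + 2 * Real.pi * ξ * I)) := by
    have h1 : Integrable (fun y : ℝ => (fun s : ℂ => p2 η s * FF (s + 1)) (((1 : ℝ) : ℂ) + y * I)) := by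
      refine vertical_integrable (H := fun s : ℂ => p2 η s * FF (s + 1)) (a := 1)
        (B := 8 / η * C * Real.exp |(0 : ℝ)|) (fun s hs => ?_) (fun s hs => ?_)
      · have h1 : DifferentiableAt ℂ FF (s + 1) :=
          FF_diff h (by rw [Complex.add_re, Complex.one_re]; linarith)
        have h2 : DifferentiableAt ℂ (fun s : ℂ => FF (s + 1)) s :=
          DifferentiableAt.comp s (g := FF) (f := fun s : ℂ => s + 1) h1 (by fun_prop)
        exact ((p2_diff η s).mul h2).continuousAt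
      · have hp : (0 : ℝ) < 1 + |s.im| := by positivity
        have e1 := p2_le' hη hη1 (s := s) (by linarith) hs.le
        have e2 := hF (s + 1) (by rw [Complex.add_re, Complex.one_re]; linarith)
          (by rw [Complex.add_re, Complex.one_re]; linarith)
        have him : (s + 1).im = s.im := by simp
        rw [him] at e2
        rw [abs_zero, Real.exp_zero, mul_one, norm_mul]
        calc ‖p2 η s‖ * ‖FF (s + 1)‖
            ≤ ((8 / η) * (1 + |s.im|) ^ (-1 : ℝ)) * (C * (1 + |s.im|) ^ (-(3 / 4) : ℝ)) := by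
              gcongr
          _ = (8 / η * C) * ((1 + |s.im|) ^ (-1 : ℝ) * (1 + |s.im|) ^ (-(3 / 4) : ℝ)) := by ring
          _ ≤ (8 / η * C) * (1 + |s.im|) ^ (-(3 / 2 : ℝ)) := by
              rw [← Real.rpow_add hp]
              refine mul_le_mul_of_nonneg_left ?_ (by positivity)
              exact Real.rpow_le_rpow_of_exponent_le (by linarith [abs_nonneg s.im]) (by norm_num)
    refine (scale_integrable (H := fun s : ℂ => p2 η s * FF (s + 1)) (a := 1) h1).congr (Eventually.of_forall fun ξ => ?_)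
    exact (hlap ξ).symm
  have hinv := inversion (kk_nice.avg hη) (c := 1) one_pos (kk_nice.avg_continuous η) hint u
  rw [hinv]
  have e1 : ∫ ξ : ℝ, Lap (avg η kk) (((1 : ℝ) : ℂ) + 2 * Real.pi * ξ * I) *
      Complex.exp ((((1 : ℝ) : ℂ) + 2 * Real.pi * ξ * I) * u) =
      ∫ ξ : ℝ, H (((1 : ℝ) : ℂ) + 2 * Real.pi * ξ * I) := by
    refine integral_congr_ae (Eventually.of_forall fun ξ => ?_)
    simp only [hH]
    rw [hlap ξ]
  rw [e1, scale_integral, ← hshift, ← scale_integral]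

/-- the function on the line -/
noncomputable def hl (σ η ξ : ℝ) : ℂ := p2 η (((σ - 1 : ℝ) : ℂ) + 2 * Real.pi * ξ * I) *
  FF (((σ - 1 : ℝ) : ℂ) + 2 * Real.pi * ξ * I + 1)

theorem line_re' (a ξ : ℝ) : ((a : ℂ) + 2 * Real.pi * ξ * I).re = a := by simp

theorem line_im' (a ξ : ℝ) : ((a : ℂ) + 2 * Real.pi * ξ * I).im = 2 * Real.pi * ξ := by simp

theorem hl_cont (h : RiemannHypothesis) {σ : ℝ} (hσ : 1 / 2 < σ) (η : ℝ) :
    Continuous (hl σ η) := by
  rw [continuous_iff_continuousAt]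
  intro ξ
  unfold hl
  have hline : Continuous (fun ξ : ℝ => ((σ - 1 : ℝ) : ℂ) + 2 * Real.pi * ξ * I) := by fun_prop
  have h1 : ContinuousAt (fun ξ : ℝ => p2 η (((σ - 1 : ℝ) : ℂ) + 2 * Real.pi * ξ * I)) ξ :=
    ((p2_diff η).continuous.comp hline).continuousAt
  have h2 : ContinuousAt FF (((σ - 1 : ℝ) : ℂ) + 2 * Real.pi * ξ * I + 1) := by
    refine (FF_diff h ?_).continuousAt
    rw [Complex.add_re, line_re', Complex.one_re]
    linarith
  have h3 : ContinuousAt (fun ξ : ℝ => FF (((σ - 1 : ℝ) : ℂ) + 2 * Real.pi * ξ * I + 1)) ξ :=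
    ContinuousAt.comp (g := FF) (f := fun ξ : ℝ => ((σ - 1 : ℝ) : ℂ) + 2 * Real.pi * ξ * I + 1) h2
      (hline.add continuous_const).continuousAt
  exact h1.mul h3

/-- the mean square of the averages is bounded -/
theorem avg_L2 (h : RiemannHypothesis) {σ : ℝ} (hσ : 1 / 2 < σ) (hσ1 : σ < 1) :
    ∃ K : ENNReal, K < ⊤ ∧ ∀ η : ℝ, 0 < η → η ≤ 1 →
      ∫⁻ u : ℝ, ‖avg η kk u * Complex.exp (-((σ - 1 : ℝ) : ℂ) * u)‖ₑ ^ 2 ≤ K := by
  obtain ⟨C, hC, hF⟩ := FF_bound h hσ hσ1.le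
  have hFl : ∀ ξ : ℝ, ‖FF (((σ - 1 : ℝ) : ℂ) + 2 * Real.pi * ξ * I + 1)‖ ≤
      C * (1 + |2 * Real.pi * ξ|) ^ (-(3 / 4) : ℝ) := by
    intro ξ
    have := hF (((σ - 1 : ℝ) : ℂ) + 2 * Real.pi * ξ * I + 1)
      (by rw [Complex.add_re, line_re', Complex.one_re]; linarith)
      (by rw [Complex.add_re, line_re', Complex.one_re]; linarith)
    rwa [Complex.add_im, line_im', Complex.one_im, add_zero] at this
  have hint0 : Integrable (fun ξ : ℝ => (1 + |2 * Real.pi * ξ|) ^ (-(3 / 2) : ℝ)) := by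
    have h1 := (integrable_decay).comp_mul_left' (R := 2 * Real.pi) (by positivity)
    exact h1
  have hint1 : Integrable (fun ξ : ℝ => (9 * C ^ 2) * (1 + |2 * Real.pi * ξ|) ^ (-(3 / 2) : ℝ)) :=
    hint0.const_mul _
  refine ⟨∫⁻ ξ : ℝ, ENNReal.ofReal ((9 * C ^ 2) * (1 + |2 * Real.pi * ξ|) ^ (-(3 / 2) : ℝ)),
    hint1.lintegral_lt_top, fun η hη hη1 => ?_⟩
  have hp2 : ∀ ξ : ℝ, ‖p2 η (((σ - 1 : ℝ) : ℂ) + 2 * Real.pi * ξ * I)‖ ≤ 3 := fun ξ =>
    p2_le hη hη1 (by rw [line_re']; linarith) (by rw [line_re']; linarith)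
  have hp2' : ∀ ξ : ℝ, ‖p2 η (((σ - 1 : ℝ) : ℂ) + 2 * Real.pi * ξ * I)‖ ≤
      8 / η * (1 + |2 * Real.pi * ξ|) ^ (-1 : ℝ) := fun ξ => by
    have := p2_le' hη hη1 (s := ((σ - 1 : ℝ) : ℂ) + 2 * Real.pi * ξ * I)
      (by rw [line_re']; linarith) (by rw [line_re']; linarith)
    rwa [line_im'] at this
  have hsq : ∀ ξ : ℝ, ‖hl σ η ξ‖ ^ 2 ≤ (9 * C ^ 2) * (1 + |2 * Real.pi * ξ|) ^ (-(3 / 2) : ℝ) := by
    intro ξ
    unfold hl
    have hp : (0 : ℝ) < 1 + |2 * Real.pi * ξ| := by positivity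
    have e1 : ‖p2 η (((σ - 1 : ℝ) : ℂ) + 2 * Real.pi * ξ * I) *
        FF (((σ - 1 : ℝ) : ℂ) + 2 * Real.pi * ξ * I + 1)‖ ≤
        3 * (C * (1 + |2 * Real.pi * ξ|) ^ (-(3 / 4) : ℝ)) := by
      rw [norm_mul]
      exact mul_le_mul (hp2 ξ) (hFl ξ) (norm_nonneg _) (by norm_num)
    calc _ ≤ (3 * (C * (1 + |2 * Real.pi * ξ|) ^ (-(3 / 4) : ℝ))) ^ 2 :=
          pow_le_pow_left₀ (norm_nonneg _) e1 2
      _ = (9 * C ^ 2) * ((1 + |2 * Real.pi * ξ|) ^ (-(3 / 4) : ℝ) *
          (1 + |2 * Real.pi * ξ|) ^ (-(3 / 4) : ℝ)) := by ring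
      _ = _ := by
          rw [← Real.rpow_add hp]
          norm_num
  have hcont := hl_cont h hσ η
  have hi : Integrable (hl σ η) := by
    refine (hint0.const_mul (8 / η * C)).mono' hcont.aestronglyMeasurable
      (Eventually.of_forall fun ξ => ?_)
    have hp : (0 : ℝ) < 1 + |2 * Real.pi * ξ| := by positivity
    unfold hl
    rw [norm_mul]
    calc _ ≤ (8 / η * (1 + |2 * Real.pi * ξ|) ^ (-1 : ℝ)) *
          (C * (1 + |2 * Real.pi * ξ|) ^ (-(3 / 4) : ℝ)) :=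
          mul_le_mul (hp2' ξ) (hFl ξ) (norm_nonneg _) (by positivity)
      _ = (8 / η * C) * ((1 + |2 * Real.pi * ξ|) ^ (-1 : ℝ) *
          (1 + |2 * Real.pi * ξ|) ^ (-(3 / 4) : ℝ)) := by ring
      _ ≤ (8 / η * C) * (1 + |2 * Real.pi * ξ|) ^ (-(3 / 2) : ℝ) := by
          rw [← Real.rpow_add hp]
          refine mul_le_mul_of_nonneg_left ?_ (by positivity)
          exact Real.rpow_le_rpow_of_exponent_le (by linarith [abs_nonneg (2 * Real.pi * ξ)])
            (by norm_num)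
  have hi2 : MemLp (hl σ η) 2 := by
    rw [memLp_two_iff_integrable_sq_norm hcont.aestronglyMeasurable]
    refine hint1.mono' (hcont.norm.pow 2).aestronglyMeasurable (Eventually.of_forall fun ξ => ?_)
    rw [Real.norm_of_nonneg (by positivity)]
    exact hsq ξ
  have hPl := Pool.Agent.H153R4.plancherel (hl σ η) hi hi2
  have hrep : ∀ u : ℝ, avg η kk u * Complex.exp (-((σ - 1 : ℝ) : ℂ) * u) = 𝓕 (hl σ η) (-u) := by
    intro u
    rw [avg_repr h hσ hσ1 hη hη1 u, Real.fourier_real_eq_integral_exp_smul, ← integral_mul_const]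
    refine integral_congr_ae (Eventually.of_forall fun ξ => ?_)
    simp only [smul_eq_mul]
    unfold hl
    have e1 : Complex.exp ((((σ - 1 : ℝ) : ℂ) + 2 * Real.pi * ξ * I) * u) *
        Complex.exp (-((σ - 1 : ℝ) : ℂ) * u) = Complex.exp (↑(-2 * Real.pi * ξ * -u) * I) := by
      rw [← Complex.exp_add]
      congr 1
      push_cast
      ring
    rw [← e1]
    ring
  simp_rw [hrep]
  rw [lintegral_neg_eq_self (fun u : ℝ => ‖𝓕 (hl σ η) u‖ₑ ^ 2), hPl]
  refine lintegral_mono fun ξ => ?_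
  rw [← ofReal_norm, ← ENNReal.ofReal_pow (norm_nonneg _)]
  exact ENNReal.ofReal_le_ofReal (hsq ξ)

/-- right continuity -/
theorem kk_right (u : ℝ) : Tendsto (fun v : ℝ => kk (u + v)) (𝓝[≥] 0) (𝓝 (kk u)) := by
  rcases lt_or_ge u 0 with hu | hu
  · have h1 : kk u = 0 := by unfold kk; rw [if_neg (by linarith)]
    rw [h1]
    refine tendsto_const_nhds.congr' ?_
    have : ∀ᶠ v in 𝓝[≥] (0 : ℝ), v < -u := by
      filter_upwards [mem_nhdsWithin_of_mem_nhds (Iio_mem_nhds (show (0 : ℝ) < -u by linarith))]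
        with v hv
      exact hv
    filter_upwards [this] with v hv
    unfold kk
    rw [if_neg (by linarith)]
  · have hfl : Real.exp u < (⌊Real.exp u⌋₊ : ℝ) + 1 := Nat.lt_floor_add_one _
    have hc : ContinuousAt (fun v : ℝ => Real.exp (u + v)) 0 := by fun_prop
    have h1 : ∀ᶠ v in 𝓝 (0 : ℝ), Real.exp (u + v) < (⌊Real.exp u⌋₊ : ℝ) + 1 := by
      have := hc.eventually_lt (g := fun _ => (⌊Real.exp u⌋₊ : ℝ) + 1) continuousAt_const
        (by simpa using hfl)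
      exact this
    have h2 : ∀ᶠ v in 𝓝[≥] (0 : ℝ), (((Chebyshev.psi (Real.exp u) - Real.exp (u + v)) *
        Real.exp (-(u + v)) : ℝ) : ℂ) = kk (u + v) := by
      filter_upwards [mem_nhdsWithin_of_mem_nhds h1, self_mem_nhdsWithin] with v hv hv0
      have hv0' : (0 : ℝ) ≤ v := hv0
      unfold kk ph
      rw [if_pos (by linarith)]
      have h3 : Chebyshev.psi (Real.exp (u + v)) = Chebyshev.psi (Real.exp u) := by
        rw [Chebyshev.psi_eq_psi_coe_floor, Chebyshev.psi_eq_psi_coe_floor (Real.exp u)]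
        congr 2
        refine le_antisymm ?_ (Nat.floor_mono (Real.exp_le_exp.2 (by linarith)))
        rw [← Nat.lt_succ_iff, Nat.floor_lt (Real.exp_pos _).le]
        push_cast
        exact hv
      rw [h3]
    refine Tendsto.congr' h2 ?_
    have h3 : kk u = (((Chebyshev.psi (Real.exp u) - Real.exp (u + 0)) *
        Real.exp (-(u + 0)) : ℝ) : ℂ) := by
      unfold kk ph
      rw [if_pos hu, add_zero]
    rw [h3]
    have h4 : Continuous (fun v : ℝ => (((Chebyshev.psi (Real.exp u) - Real.exp (u + v)) *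
        Real.exp (-(u + v)) : ℝ) : ℂ)) := by fun_prop
    exact (h4.tendsto 0).mono_left nhdsWithin_le_nhds

/-- convergence of the averages -/
theorem avg_tendsto (u : ℝ) :
    Tendsto (fun n : ℕ => avg (1 / ((n : ℝ) + 1)) kk u) atTop (𝓝 (kk u)) := by
  rw [Metric.tendsto_atTop]
  intro ε hε
  have h1 := (Metric.tendsto_nhds.1 (kk_right u)) (ε / 2) (by linarith)
  rw [eventually_nhdsWithin_iff] at h1
  obtain ⟨δ, hδ, h2⟩ := Metric.eventually_nhds_iff.1 h1
  obtain ⟨N, hN⟩ := exists_nat_one_div_lt hδ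
  refine ⟨N, fun n hn => ?_⟩
  set η : ℝ := 1 / ((n : ℝ) + 1) with hη
  have hη0 : 0 < η := by positivity
  have hηδ : η < δ := by
    refine lt_of_le_of_lt ?_ hN
    rw [hη]
    have : (N : ℝ) ≤ n := by exact_mod_cast hn
    gcongr
  have hηC : (η : ℂ) ≠ 0 := by exact_mod_cast hη0.ne'
  have hi : IntervalIntegrable (fun v : ℝ => kk (u + v)) volume 0 η := by
    have := (kk_nice.intervalIntegrable (u + 0) (u + η)).comp_add_left u
    simpa using this
  have h3 : avg η kk u - kk u = (1 / (η : ℂ)) * ∫ v in (0 : ℝ)..η, (kk (u + v) - kk u) := by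
    unfold avg
    rw [intervalIntegral.integral_sub hi intervalIntegrable_const, intervalIntegral.integral_const]
    rw [sub_zero, Complex.real_smul, mul_sub]
    field_simp
  rw [dist_eq_norm, h3, norm_mul, norm_div, norm_one, Complex.norm_real,
    Real.norm_of_nonneg hη0.le]
  have h4 : ‖∫ v in (0 : ℝ)..η, (kk (u + v) - kk u)‖ ≤ ε / 2 * |η - 0| := by
    refine intervalIntegral.norm_integral_le_of_norm_le_const fun v hv => ?_
    rw [uIoc_of_le hη0.le] at hv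
    have h5 := h2 (y := v) (by
      rw [dist_eq_norm, sub_zero, Real.norm_of_nonneg hv.1.le]
      linarith [hv.2]) hv.1.le
    rw [dist_eq_norm] at h5
    exact h5.le
  rw [sub_zero, abs_of_pos hη0] at h4
  calc 1 / η * ‖∫ v in (0 : ℝ)..η, (kk (u + v) - kk u)‖ ≤ 1 / η * (ε / 2 * η) :=
        mul_le_mul_of_nonneg_left h4 (by positivity)
    _ = ε / 2 := by field_simp
    _ < ε := by linarith

theorem kk_L2 (h : RiemannHypothesis) {σ : ℝ} (hσ : 1 / 2 < σ) (hσ1 : σ < 1) :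
    ∫⁻ u : ℝ, ‖kk u * Complex.exp (-((σ - 1 : ℝ) : ℂ) * u)‖ₑ ^ 2 < ⊤ := by
  obtain ⟨K, hK, hb⟩ := avg_L2 h hσ hσ1
  refine lt_of_le_of_lt ?_ hK
  have h1 : ∀ u : ℝ, Tendsto (fun n : ℕ => ‖avg (1 / ((n : ℝ) + 1)) kk u *
      Complex.exp (-((σ - 1 : ℝ) : ℂ) * u)‖ₑ ^ 2) atTop
      (𝓝 (‖kk u * Complex.exp (-((σ - 1 : ℝ) : ℂ) * u)‖ₑ ^ 2)) := by
    intro u
    have h2 := ((avg_tendsto u).mul_const (Complex.exp (-((σ - 1 : ℝ) : ℂ) * u))).enorm
    exact ENNReal.Tendsto.pow h2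
  calc ∫⁻ u : ℝ, ‖kk u * Complex.exp (-((σ - 1 : ℝ) : ℂ) * u)‖ₑ ^ 2
      = ∫⁻ u : ℝ, liminf (fun n : ℕ => ‖avg (1 / ((n : ℝ) + 1)) kk u *
        Complex.exp (-((σ - 1 : ℝ) : ℂ) * u)‖ₑ ^ 2) atTop :=
        lintegral_congr fun u => (h1 u).liminf_eq.symm
    _ ≤ liminf (fun n : ℕ => ∫⁻ u : ℝ, ‖avg (1 / ((n : ℝ) + 1)) kk u *
        Complex.exp (-((σ - 1 : ℝ) : ℂ) * u)‖ₑ ^ 2) atTop := by
        refine lintegral_liminf_le fun n => ?_
        have : Measurable (avg (1 / ((n : ℝ) + 1)) kk) := (kk_nice.avg_continuous _).measurable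
        fun_prop
    _ ≤ K := by
        refine liminf_le_of_le (by isBoundedDefault) fun b hb' => ?_
        obtain ⟨n, hn⟩ := hb'.exists
        refine hn.trans (hb _ (by positivity) ?_)
        rw [div_le_one (by positivity)]
        linarith [(Nat.cast_nonneg n : (0 : ℝ) ≤ n)]

theorem L2_of_rh (h : RiemannHypothesis) : L2psi := by
  intro θ hθ
  set σ : ℝ := min (θ / 2) (3 / 4) with hσd
  have hσ : 1 / 2 < σ := by rw [hσd, lt_min_iff]; constructor <;> linarith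
  have hσ1 : σ < 1 := by
    have : σ ≤ 3 / 4 := min_le_right _ _
    linarith
  have hσθ : 2 * σ ≤ θ := by
    have : σ ≤ θ / 2 := min_le_left _ _
    linarith
  have h1 := kk_L2 h hσ hσ1
  have hm : Measurable (fun u : ℝ => kk u * Complex.exp (-((σ - 1 : ℝ) : ℂ) * u)) := by
    have := kk_meas
    fun_prop
  have h2 : Integrable (fun u : ℝ => ‖kk u * Complex.exp (-((σ - 1 : ℝ) : ℂ) * u)‖ ^ 2) := by
    refine ⟨(hm.norm.pow_const 2).aestronglyMeasurable, ?_⟩
    rw [hasFiniteIntegral_iff_enorm]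
    refine lt_of_le_of_lt (le_of_eq (lintegral_congr fun u => ?_)) h1
    rw [enorm_pow, enorm_norm]
  have h3 := h2.integrableOn (s := Ioi (0 : ℝ))
  refine Integrable.mono' h3 ?_ ?_
  · exact ((ph_meas.pow_const 2).mul (by fun_prop)).aestronglyMeasurable
  · refine (ae_restrict_mem measurableSet_Ioi).mono fun u hu => ?_
    have hu0 : (0 : ℝ) < u := hu
    rw [Real.norm_of_nonneg (by positivity)]
    unfold kk
    rw [if_pos hu0.le, norm_mul, Complex.norm_real, Real.norm_eq_abs, Complex.norm_exp]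
    have e1 : (-((σ - 1 : ℝ) : ℂ) * u).re = -(σ - 1) * u := by
      rw [← Complex.ofReal_neg, ← Complex.ofReal_mul, Complex.ofReal_re]
    rw [e1, mul_pow, sq_abs, mul_pow, mul_assoc, ← Real.exp_nat_mul, ← Real.exp_nat_mul,
      ← Real.exp_add]
    refine mul_le_mul_of_nonneg_left (Real.exp_le_exp.2 ?_) (sq_nonneg _)
    push_cast
    nlinarith

end Pool.Agent.Q296.GM
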